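import Mathlib
import Pool.Agent.TH350.RC.Main

/-!
# Few zero coefficients of the generating function of a character

`β` is a sequence in a field of characteristic `p` with
`(e^{Nt} - 1) ∑ β_m t^m / m! = t ∑_{a ≤ N} χ(a) e^{at}` up to the order `M < p`. Then
`2 M ≤ (φ(N) + 1) (φ(N) + 2) (s + 2)^2` where `s` is the number of the `m`, `2 ≤ m ≤ M`, with
`β_m ≠ 0`. It follows from the zero estimate of `Pool/Agent/TH350/RC/ZE.lean`.
-/

set_option autoImplicit false

namespace Pool.Agent.R480.EC

open Finset Pool.Agent.TH350.RC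

lemma cast_inj {F : Type*} [Field F] {p : ℕ} [CharP F p] {a b : ℕ} (ha : a < p) (hb : b < p)
    (h : (a : F) = b) : a = b := CharP.natCast_injOn_Iio F p ha hb h

theorem core {F : Type*} [Field F] (p : ℕ) [CharP F p] (N M : ℕ) (hN : 2 ≤ N)
    (hNp : N < p) (hMp : M + 1 ≤ p) (χ : ℕ → F) (h1 : χ 1 ≠ 0) (hχ : ∀ a, ¬ a.Coprime N → χ a = 0)
    (β : ℕ → F)
    (hrec : ∀ k, 1 ≤ k → k ≤ M → ∑ m ∈ range k, (k.choose m : F) * (N : F) ^ (k - m) * β m =
      k * ∑ a ∈ Icc 1 N, χ a * (a : F) ^ (k - 1))
    (S : Finset ℕ) (hS : ∀ m, 2 ≤ m → m ≤ M → β m ≠ 0 → m ∈ S) :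
    2 * M ≤ (N.totient + 2) * (N.totient + 1) * (S.card + 2) ^ 2 := by
  classical
  rcases Nat.lt_or_ge M 1 with hM0 | hM1
  · have : M = 0 := by omega
    subst this
    simp
  set G : Finset ℕ := (Icc 2 M).filter (fun m => β m ≠ 0) with hG
  set T : Finset ℕ := insert 0 (insert 1 G) with hT
  set P : Finset ℕ := (range (N + 1)).filter (fun a => a = 0 ∨ a = N ∨ a.Coprime N) with hP
  have hTM : ∀ i ∈ T, i ≤ M := by
    intro i hi
    rw [hT, mem_insert, mem_insert, hG, mem_filter, mem_Icc] at hi
    omega
  have hTsub : T ⊆ range (M + 1) := fun i hi => mem_range.2 (Nat.lt_succ_of_le (hTM i hi))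
  have hTn : ∀ i ∈ range (M + 1), i ∉ T → β i = 0 := by
    intro i hi hn
    rw [hT, mem_insert, mem_insert, hG, mem_filter, mem_Icc] at hn
    rw [mem_range] at hi
    push Not at hn
    exact hn.2.2 ⟨by omega, by omega⟩
  have hfac : ∀ i, i < p → ((i.factorial : ℕ) : F) ≠ 0 := by
    intro i hi
    have hpp : p.Prime := by
      rcases CharP.char_is_prime_or_zero F p with h | h
      · exact h
      · omega
    rw [Ne, CharP.cast_eq_zero_iff F p, hpp.dvd_factorial]
    omega
  have hcast : ∀ k : ℕ, 0 < k → k < p → (k : F) ≠ 0 := by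
    intro k h0 hk h
    exact h0.ne' (cast_inj (p := p) hk (by omega) (by rw [h, Nat.cast_zero]))
  -- the coefficients
  let b : ℕ → ℕ → F := fun a i => (if i = 1 then χ a else 0) +
    (if a = 0 then β i / (i.factorial : ℕ) else 0) - (if a = N then β i / (i.factorial : ℕ) else 0)
  have hrel : ∀ k < M + 1, ∑ a ∈ P, ∑ i ∈ T, b a i * SQ i ((a : ℕ) : F) k = 0 := by
    intro k hk
    have e1 : ∀ a ∈ P, ∑ i ∈ T, b a i * SQ i ((a : ℕ) : F) k = χ a * ((k : F) * (a : F) ^ (k - 1)) +
        (if a = 0 then ∑ i ∈ T, β i / (i.factorial : ℕ) * SQ i (0 : F) k else 0) -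
        (if a = N then ∑ i ∈ T, β i / (i.factorial : ℕ) * SQ i (N : F) k else 0) := by
      intro a _
      simp only [b, sub_mul, add_mul, Finset.sum_sub_distrib, Finset.sum_add_distrib]
      congr 1
      · congr 1
        · rw [Finset.sum_eq_single 1]
          · rw [if_pos rfl, SQ, Nat.descFactorial_one]
          · intro i _ hi
            rw [if_neg hi, zero_mul]
          · intro h
            exact absurd (by rw [hT]; simp) h
        · split_ifs with h0
          · rw [h0, Nat.cast_zero]
          · simp
      · split_ifs with h0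
        · rw [h0]
        · simp
    rw [Finset.sum_congr rfl e1, Finset.sum_sub_distrib, Finset.sum_add_distrib]
    have hP0 : 0 ∈ P := by rw [hP, mem_filter, mem_range]; exact ⟨by omega, Or.inl rfl⟩
    have hPN : N ∈ P := by rw [hP, mem_filter, mem_range]; exact ⟨by omega, Or.inr (Or.inl rfl)⟩
    rw [Finset.sum_ite_eq' P 0, if_pos hP0, Finset.sum_ite_eq' P N, if_pos hPN]
    have e2 : ∑ i ∈ T, β i / (i.factorial : ℕ) * SQ i (0 : F) k = β k := by
      rw [Finset.sum_subset hTsub (fun i hi hn => by rw [hTn i hi hn]; simp)]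
      rw [Finset.sum_eq_single k]
      · rw [SQ, Nat.descFactorial_self, Nat.sub_self, pow_zero, mul_one, div_mul_cancel₀]
        exact hfac k (by omega)
      · intro i _ hik
        rw [SQ]
        rcases Nat.lt_or_gt_of_ne hik with h | h
        · rw [zero_pow (by omega), mul_zero, mul_zero]
        · rw [Nat.descFactorial_of_lt h, Nat.cast_zero, zero_mul, mul_zero]
      · intro h
        exact absurd (mem_range.2 hk) h
    have e3 : ∑ i ∈ T, β i / (i.factorial : ℕ) * SQ i (N : F) k =
        ∑ i ∈ range k, (k.choose i : F) * (N : F) ^ (k - i) * β i + β k := by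
      rw [Finset.sum_subset hTsub (fun i hi hn => by rw [hTn i hi hn]; simp)]
      have e4 : ∀ i ∈ range (M + 1), β i / (i.factorial : ℕ) * SQ i (N : F) k =
          (k.choose i : F) * (N : F) ^ (k - i) * β i := by
        intro i hi
        rw [mem_range] at hi
        have hf := hfac i (by omega)
        rw [SQ, Nat.descFactorial_eq_factorial_mul_choose]
        push_cast
        field_simp
      rw [Finset.sum_congr rfl e4]
      rw [← Finset.sum_subset (s₁ := range (k + 1)) (fun i hi => mem_range.2 (by
        rw [mem_range] at hi; omega)) (fun i _ hn => by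
          rw [mem_range, not_lt] at hn
          rw [Nat.choose_eq_zero_of_lt (by omega), Nat.cast_zero, zero_mul, zero_mul])]
      rw [Finset.sum_range_succ, Nat.choose_self, Nat.sub_self]
      simp
    have e5 : ∑ a ∈ P, χ a * ((k : F) * (a : F) ^ (k - 1)) =
        k * ∑ a ∈ Icc 1 N, χ a * (a : F) ^ (k - 1) := by
      rw [Finset.mul_sum]
      have hN1 : ¬ Nat.Coprime 0 N := by
        rw [Nat.coprime_zero_left]; omega
      have h2 : Icc 1 N ⊆ range (N + 1) := fun a ha => by
        rw [mem_Icc] at ha
        exact mem_range.2 (by omega)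
      rw [Finset.sum_subset (s₁ := P) (s₂ := range (N + 1)) (Finset.filter_subset _ _)
        (fun a ha hn => by
          have : ¬ a.Coprime N := fun h => hn (by rw [hP, mem_filter]; exact ⟨ha, Or.inr (Or.inr h)⟩)
          rw [hχ a this, zero_mul])]
      rw [Finset.sum_subset h2 (fun a ha hn => by
        have : a = 0 := by
          rw [mem_range] at ha
          rw [mem_Icc] at hn
          omega
        rw [this, hχ 0 hN1]; simp)]
      refine Finset.sum_congr rfl fun a _ => ?_
      ring
    rw [e2, e3, e5]
    rcases Nat.eq_zero_or_pos k with h0 | h0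
    · subst h0
      simp
    · rw [hrec k h0 (by omega)]
      ring
  have hmain := ze_family P (fun a => ((a : ℕ) : F)) T
    (fun i hi j hj h => cast_inj (p := p) (by have := hTM i hi; omega) (by have := hTM j hj; omega) h)
    (M + 1) (fun k h0 hk => hcast k h0 (by omega)) b hrel 1
    (by rw [hP, mem_filter, mem_range]; exact ⟨by omega, Or.inr (Or.inr (Nat.coprime_one_left N))⟩)
    (by
      intro J hJ hJ1
      rw [hP, mem_filter, mem_range] at hJ
      have : ((J : ℕ) : F) = ((1 : ℕ) : F) := by simpa using hJ1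
      exact cast_inj (p := p) (by omega) (by omega) this)
    1 (by rw [hT]; simp)
    (by
      simp only [b]
      rw [if_pos trivial, if_neg (by omega), if_neg (by omega), add_zero, sub_zero]
      exact h1)
  have hPc : P.card ≤ N.totient + 2 := by
    have h2 : P ⊆ insert 0 (insert N ((range N).filter (fun a => N.Coprime a))) := by
      intro a ha
      rw [hP, mem_filter, mem_range] at ha
      rw [mem_insert, mem_insert, mem_filter, mem_range]
      rcases ha.2 with h | h | h
      · exact Or.inl h
      · exact Or.inr (Or.inl h)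
      · by_cases haN : a = N
        · exact Or.inr (Or.inl haN)
        · exact Or.inr (Or.inr ⟨by omega, h.symm⟩)
    refine (Finset.card_le_card h2).trans ?_
    rw [Nat.totient_eq_card_coprime]
    exact (Finset.card_insert_le _ _).trans (by
      have := Finset.card_insert_le N ((range N).filter (fun a => N.Coprime a))
      omega)
  have hGS : G ⊆ S := by
    intro m hm
    rw [hG, mem_filter, mem_Icc] at hm
    exact hS m hm.1.1 hm.1.2 hm.2
  have hTc : T.card ≤ S.card + 2 := by
    have h2 := Finset.card_insert_le 0 (insert 1 G)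
    have h3 := Finset.card_insert_le 1 G
    have h4 := Finset.card_le_card hGS
    rw [← hT] at h2
    omega
  have h5 : P.card * (P.card - 1) * T.card ^ 2 ≤
      (N.totient + 2) * (N.totient + 1) * (S.card + 2) ^ 2 := by
    gcongr
    omega
  omega

end Pool.Agent.R480.EC
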