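import Mathlib
import Pool.Agent.R480.EC.Core
import Pool.Agent.Y18.GX.Red

/-!
# The numbers `B_{m,ψ}` at a place above `p`
-/

set_option autoImplicit false

namespace Pool.Agent.R480.EC

open Finset

/-- `N^m / N * ∑ ψ(a) B_m(a/N)`; this is `B_{m,ψ}` -/
noncomputable def bb (N : ℕ) (ψ : ℕ → ℂ) (m : ℕ) : ℂ :=
  (N : ℂ) ^ m / N * ∑ a ∈ Icc 1 N, ψ a * (((Polynomial.bernoulli m).eval ((a : ℚ) / N) : ℚ) : ℂ)

lemma bern_sum (k : ℕ) (hk : 1 ≤ k) (x : ℚ) :
    ∑ m ∈ range k, (k.choose m : ℚ) * (Polynomial.bernoulli m).eval x = k * x ^ (k - 1) := by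
  obtain ⟨n, rfl⟩ : ∃ n, k = n + 1 := ⟨k - 1, by omega⟩
  have h := congrArg (Polynomial.eval x) (Polynomial.sum_bernoulli n)
  rw [Polynomial.eval_finsetSum, Polynomial.eval_monomial] at h
  simp only [Polynomial.eval_smul, smul_eq_mul] at h
  rw [Nat.add_sub_cancel, h]
  push_cast
  ring

theorem rec_C (N : ℕ) (hN : N ≠ 0) (ψ : ℕ → ℂ) (k : ℕ) (hk : 1 ≤ k) :
    ∑ m ∈ range k, (k.choose m : ℂ) * (N : ℂ) ^ (k - m) * bb N ψ m =
      k * ∑ a ∈ Icc 1 N, ψ a * (a : ℂ) ^ (k - 1) := by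
  have hNC : (N : ℂ) ≠ 0 := by exact_mod_cast hN
  have h1 : ∀ m ∈ range k, (k.choose m : ℂ) * (N : ℂ) ^ (k - m) * bb N ψ m =
      ∑ a ∈ Icc 1 N, (N : ℂ) ^ (k - 1) * ψ a *
        (((k.choose m : ℚ) * (Polynomial.bernoulli m).eval ((a : ℚ) / N) : ℚ) : ℂ) := by
    intro m hm
    rw [mem_range] at hm
    have h2 : (N : ℂ) ^ (k - m) * ((N : ℂ) ^ m / N) = (N : ℂ) ^ (k - 1) := by
      rw [← mul_div_assoc, ← pow_add, Nat.sub_add_cancel hm.le, div_eq_iff hNC, ← pow_succ,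
        Nat.sub_add_cancel hk]
    rw [bb, mul_assoc, ← mul_assoc ((N : ℂ) ^ (k - m)), h2, Finset.mul_sum, Finset.mul_sum]
    refine Finset.sum_congr rfl fun a _ => ?_
    push_cast
    ring
  rw [Finset.sum_congr rfl h1, Finset.sum_comm, Finset.mul_sum]
  refine Finset.sum_congr rfl fun a _ => ?_
  rw [← Finset.mul_sum, ← Rat.cast_sum, bern_sum k hk]
  push_cast
  rw [div_pow]
  have : (N : ℂ) ^ (k - 1) ≠ 0 := pow_ne_zero _ hNC
  field_simp

section

variable (B : ValuationSubring ℂ) {p : ℕ} (hp : p.Prime) (hB : B.valuation (p : ℂ) < 1)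

include hp hB

lemma unit_nat {n : ℕ} (hn : ¬ p ∣ n) : IsUnit ((n : ℕ) : B) := by
  have hch := Pool.Agent.Y18.GX.charP_res B hp hB
  rw [← IsLocalRing.residue_ne_zero_iff_isUnit, map_natCast]
  intro h
  exact hn ((CharP.cast_eq_zero_iff (IsLocalRing.ResidueField B) p n).1 h)

theorem bb_mem (N : ℕ) (hpN : ¬ p ∣ N) (ψ : ℕ → ℂ) (hψ : ∀ a, ψ a ∈ B) :
    ∀ m, m + 1 < p → bb N ψ m ∈ B := by
  have hN : N ≠ 0 := by rintro rfl; exact hpN (dvd_zero _)
  intro m
  induction m using Nat.strong_induction_on with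
  | _ m ih =>
    intro hm
    have h1 := rec_C N hN ψ (m + 1) (by omega)
    rw [Finset.sum_range_succ] at h1
    have hu : IsUnit ((((m + 1) * N : ℕ)) : B) := by
      apply unit_nat B hp hB
      intro h
      rcases (hp.dvd_mul).1 h with h | h
      · have := Nat.le_of_dvd (by omega) h
        omega
      · exact hpN h
    obtain ⟨ν, hν⟩ := hu.exists_left_inv
    have hνC : (ν : ℂ) * (((m + 1 : ℕ) : ℂ) * N) = 1 := by
      have := congrArg (Subtype.val) hν
      push_cast at this ⊢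
      exact this
    have h2 : bb N ψ m = (ν : ℂ) * (((m + 1 : ℕ) : ℂ) * ∑ a ∈ Icc 1 N, ψ a * (a : ℂ) ^ (m + 1 - 1) -
        ∑ j ∈ range m, ((m + 1).choose j : ℂ) * (N : ℂ) ^ (m + 1 - j) * bb N ψ j) := by
      rw [← h1, add_sub_cancel_left, Nat.choose_succ_self_right, Nat.add_sub_cancel_left, pow_one]
      rw [← mul_assoc, hνC, one_mul]
    rw [h2]
    refine B.mul_mem _ _ ν.2 (B.sub_mem (B.mul_mem _ _ (natCast_mem B _) ?_) ?_)
    · exact sum_mem fun a _ => B.mul_mem _ _ (hψ a) (pow_mem (natCast_mem B a) _)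
    · refine sum_mem fun j hj => ?_
      rw [mem_range] at hj
      exact B.mul_mem _ _ (B.mul_mem _ _ (natCast_mem B _) (pow_mem (natCast_mem B _) _))
        (ih j hj (by omega))

/-- The count at one place: `2 M ≤ (φ(N) + 1) (φ(N) + 2) (s + 2)^2` for the number `s` of the `m`,
`2 ≤ m ≤ M`, such that `B_{m,ψ}` is a unit at the place. -/
theorem count_val (N M : ℕ) (hN : 2 ≤ N) (hNp : N < p) (hMp : M + 2 ≤ p) (ψ : ℕ → ℂ)
    (h1 : ψ 1 = 1) (hψ : ∀ a, ψ a ∈ B) (hχ : ∀ a, ¬ a.Coprime N → ψ a = 0)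
    (S : Finset ℕ) (hS : ∀ m, 2 ≤ m → m ≤ M → B.valuation (bb N ψ m) = 1 → m ∈ S) :
    2 * M ≤ (N.totient + 2) * (N.totient + 1) * (S.card + 2) ^ 2 := by
  classical
  have hch := Pool.Agent.Y18.GX.charP_res B hp hB
  have hpN : ¬ p ∣ N := fun h => by
    have := Nat.le_of_dvd (by omega) h
    omega
  have hmem := bb_mem B hp hB N hpN ψ hψ
  set ρ := IsLocalRing.residue B with hρ
  let βB : ℕ → B := fun m => if h : m + 1 < p then ⟨bb N ψ m, hmem m h⟩ else 0
  have hβB : ∀ m, m + 1 < p → ((βB m : B) : ℂ) = bb N ψ m := by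
    intro m hm
    simp only [βB]
    rw [dif_pos hm]
  let χB : ℕ → B := fun a => ⟨ψ a, hψ a⟩
  refine core (F := IsLocalRing.ResidueField B) p N M hN hNp (by omega) (fun a => ρ (χB a)) ?_ ?_
    (fun m => ρ (βB m)) ?_ S ?_
  · have : χB 1 = 1 := Subtype.ext h1
    rw [this, map_one]
    exact one_ne_zero
  · intro a ha
    have : χB a = 0 := Subtype.ext (hχ a ha)
    simp only [this, map_zero]
  · intro k hk1 hkM
    have h2 : ∑ m ∈ range k, (k.choose m : B) * (N : B) ^ (k - m) * βB m =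
        k * ∑ a ∈ Icc 1 N, χB a * (a : B) ^ (k - 1) := by
      apply Subtype.ext
      have h3 := rec_C N (by omega) ψ k hk1
      have h4 : ((∑ m ∈ range k, (k.choose m : B) * (N : B) ^ (k - m) * βB m : B) : ℂ) =
          ∑ m ∈ range k, (k.choose m : ℂ) * (N : ℂ) ^ (k - m) * bb N ψ m := by
        have h5 : ((∑ m ∈ range k, (k.choose m : B) * (N : B) ^ (k - m) * βB m : B) : ℂ) =
          B.subtype (∑ m ∈ range k, (k.choose m : B) * (N : B) ^ (k - m) * βB m) := rfl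
        rw [h5, map_sum]
        refine Finset.sum_congr rfl fun m hm => ?_
        rw [mem_range] at hm
        rw [map_mul, map_mul, map_pow, map_natCast, map_natCast]
        congr 1
        exact hβB m (by omega)
      have h6 : ((k * ∑ a ∈ Icc 1 N, χB a * (a : B) ^ (k - 1) : B) : ℂ) =
          k * ∑ a ∈ Icc 1 N, ψ a * (a : ℂ) ^ (k - 1) := by
        have h5 : ((k * ∑ a ∈ Icc 1 N, χB a * (a : B) ^ (k - 1) : B) : ℂ) =
          B.subtype (k * ∑ a ∈ Icc 1 N, χB a * (a : B) ^ (k - 1)) := rfl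
        rw [h5, map_mul, map_natCast, map_sum]
        congr 1
      rw [h4, h6, h3]
    have h7 := congrArg ρ h2
    rw [map_sum, map_mul, map_natCast, map_sum] at h7
    simp only [map_mul, map_pow, map_natCast] at h7
    exact h7
  · intro m hm2 hmM hne
    refine hS m hm2 hmM ?_
    rw [← hβB m (by omega)]
    exact Pool.Agent.Y18.GX.val_of_res B _ hne

end

end Pool.Agent.R480.EC
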